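import Pool.Agent.Lib.H18TC.Main

/-!
# MP_fbf460_gt.ProductRegions

Cocompact product regions `Euc k × Z` in a CAT(0) space: a dense set of the directions of the
Euclidean factor have a Tits neighbourhood contained in the boundary of the region, and the
conclusion of Q1 passes from the cross section `Z` to the whole space `X`.
All definitions are in `Pool/Agent/Lib/H18TC/Defs.lean` and `Pool/Agent/Lib/H18TB/Defs.lean`.
-/

set_option autoImplicit false

namespace Pool.Agent.Results.MP_fbf460_gt.ProductRegions

open Pool.Agent.H18TB Pool.Agent.H18TC

/-- Let `X` be a proper CAT(0) space with an isometric action of `G`, and `Ψ : Euc k → Z → X` an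
isometric embedding of the product of `Euc k` and a complete CAT(0) space `Z` such that all flats
parallel to the flat `x ↦ Ψ x z₀` pass within a bounded distance of the region and such that the
elements of `G` acting on the region as products of a translation of `Euc k` and an isometry of `Z`
act cocompactly on the region.  Then the directions `u` of the Euclidean factor whose point at
infinity has a neighbourhood in the Tits boundary of `X` contained in the boundary of the region are
dense; and if `k` is positive and `Z` is bounded or satisfies the conclusion of Q1, then `X`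
satisfies the conclusion of Q1. -/
theorem result (X Z : Type) [MetricSpace X] [ProperSpace X] [MetricSpace Z] [CompleteSpace Z]
    (G : Type) [Group G] [MulAction G X] (hX : IsCAT0 X) (hZ : IsCAT0 Z)
    (hiso : ∀ (g : G) (x y : X), dist (g • x) (g • y) = dist x y)
    (k : ℕ) (Ψ : Euc k → Z → X) (hΨ : IsProductMap Ψ) (z₀ : Z)
    (hP : ContainsParallelFlats Ψ z₀) (hco : RegionCocompact G Ψ z₀) :
    (∀ u : Euc k, ‖u‖ = 1 → ∀ ε : ℝ, 0 < ε →
      ∃ u' : Euc k, ‖u'‖ = 1 ∧ ‖u' - u‖ < ε ∧ RelInterior Ψ z₀ u') ∧
    (1 ≤ k → (Bornology.IsBounded (Set.univ : Set Z) ∨ HasRelCompactOpen Z) →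
      HasRelCompactOpen X) :=
  main_theorem X Z G hX hZ hiso k Ψ hΨ z₀ hP hco

end Pool.Agent.Results.MP_fbf460_gt.ProductRegions
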