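import Pool.Agent.Lib.H18TB.Main

/-!
# MP_fbf460_gt.RegularDirections

A criterion for a point of the boundary of an arbitrary flat (of any dimension, not assumed to be
periodic or of maximal dimension) to have a Tits neighbourhood contained in the boundary of the flat,
with the conclusion of Q1 for the space; for periodic flats the criterion is also necessary.
All definitions are in `Pool/Agent/Lib/H18TB/Defs.lean`.
-/

set_option autoImplicit false

namespace Pool.Agent.Results.MP_fbf460_gt.RegularDirections

open Pool.Agent.H18TB

/-- Let `X` be a locally compact CAT(0) space with a cocompact isometric action of `G`, `i` a flat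
of `X` of any dimension `k` and `u` a unit vector.  If `u` is a regular direction of `i` (in every
limit flat of `i` in the direction `u` the parallel set of the line of direction `u` lies in a
bounded neighbourhood of the limit flat) then the point at infinity of `i` in the direction `u` has
a neighbourhood in the Tits boundary of `X` contained in the boundary of the flat, and the conclusion
of Q1 holds for `X`.  If elements of `G` act on the flat as a cocompact set of translations, the
criterion is also necessary, and it is equivalent to the parallel set of the line of direction `u` of
the flat itself lying in a bounded neighbourhood of the flat. -/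
theorem result (X : Type) [MetricSpace X] [LocallyCompactSpace X] [CompleteSpace X] (G : Type)
    [Group G] [MulAction G X] (hX : IsCAT0 X)
    (hiso : ∀ (g : G) (x y : X), dist (g • x) (g • y) = dist x y)
    (hco : ∃ K : Set X, IsCompact K ∧ ∀ x : X, ∃ g : G, g • x ∈ K)
    (k : ℕ) (i : Euc k → X) (hi : Isometry i) (u : Euc k) (hu : ‖u‖ = 1) :
    (RegularDirection G i u → InteriorDirection i u ∧ HasRelCompactOpen X) ∧
    (TranslationCocompact G i →
      (RegularDirection G i u ↔ InteriorDirection i u) ∧
      (RegularDirection G i u ↔ ParallelSetNear i u)) := by
  obtain ⟨h1, h2, h3⟩ := main_theorem X G hX hiso hco k i hi u hu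
  refine ⟨fun h => ⟨h1 h, h3 (h1 h)⟩, fun htr => ?_⟩
  have hP : ProperSpace X := proper_of_cocompact hX G hiso hco
  have h4 : ParallelSetNear i u → RegularDirection G i u := regular_of_periodic hiso hi htr
  exact ⟨⟨h1, fun h => h4 ((h2 htr).1 h)⟩, ⟨fun h => (h2 htr).1 (h1 h), h4⟩⟩

end Pool.Agent.Results.MP_fbf460_gt.RegularDirections
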